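import Pool.Agent.W500.CS.Stm2

/-!
# Project CQ (MP_46692b_an): the level sets of the Cauchy transform have finite perimeter
-/

set_option autoImplicit false

open MeasureTheory Metric Set Filter Topology Complex
open scoped ContDiff ENNReal

namespace Pool.Agent.W589.CQ

open Pool.Agent.H586R3.CT
open Pool.Agent.Split938 (dbar dbar_continuous dbar_hcs dbar_tsupport dbar_zero_off)

theorem tendsto_conv_gen {h : ℂ → ℝ} (hc : Continuous h) (ζ : ℂ) :
    Tendsto (fun n => ∫ w, h w * ψR n (w - ζ)) atTop (𝓝 (h ζ)) := by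
  have h1 := ContDiffBump.convolution_tendsto_right_of_continuous (φ := bmp) (l := atTop)
    (μ := (volume : Measure ℂ)) (g := h) tendsto_ep hc ζ
  refine h1.congr fun n => ?_
  rw [convolution_def, ← integral_sub_left_eq_self (fun w => h w * ψR n (w - ζ)) volume ζ]
  congr 1
  funext t
  show ψR n t • h (ζ - t) = h (ζ - t) * ψR n (ζ - t - ζ)
  have : ζ - t - ζ = -t := by ring
  rw [this, ψR_neg, smul_eq_mul, mul_comm]

theorem tendsto_int_mm_gen (μ : Measure ℂ) [IsFiniteMeasure μ] {h : ℂ → ℝ} (hc : Continuous h)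
    (hs : HasCompactSupport h) :
    Tendsto (fun n => ∫ w, h w * mm n μ w) atTop (𝓝 (∫ ζ, h ζ ∂μ)) := by
  have hint : ∀ n, Integrable (fun p : ℂ × ℂ => h p.1 * ψR n (p.1 - p.2)) (volume.prod μ) := by
    intro n
    obtain ⟨B, hB⟩ := (ψR_hcs n).exists_bound_of_continuous (ψR_continuous n)
    have h1 : Integrable (fun p : ℂ × ℂ => h p.1) (volume.prod μ) :=
      Integrable.comp_fst (hc.integrable_of_hasCompactSupport hs) μ
    exact h1.mul_bdd (c := B) ((ψR_continuous n).comp (by fun_prop)).aestronglyMeasurable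
      (Eventually.of_forall fun p => hB _)
  have hswap : ∀ n, ∫ w, h w * mm n μ w = ∫ ζ, (∫ w, h w * ψR n (w - ζ)) ∂μ := by
    intro n
    rw [← integral_integral_swap (hint n)]
    congr 1
    funext w
    rw [mm, integral_const_mul]
  simp_rw [hswap]
  obtain ⟨B, hB⟩ := hs.exists_bound_of_continuous hc
  have hB0 : 0 ≤ B := (norm_nonneg _).trans (hB 0)
  apply tendsto_integral_of_dominated_convergence (fun _ => B)
  · intro n
    exact (hint n).integral_prod_right.aestronglyMeasurable
  · exact integrable_const B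
  · intro n
    refine Eventually.of_forall fun ζ => ?_
    have hi : Integrable (fun w => B * ψR n (w - ζ)) :=
      ((integrable_ψR n).comp_sub_right ζ).const_mul B
    calc ‖∫ w, h w * ψR n (w - ζ)‖ ≤ ∫ w, B * ψR n (w - ζ) := by
          apply norm_integral_le_of_norm_le hi
          refine Eventually.of_forall fun w => ?_
          rw [norm_mul, Real.norm_of_nonneg (ψR_nonneg n _)]
          exact mul_le_mul_of_nonneg_right (hB _) (ψR_nonneg _ _)
      _ = B := by
          rw [integral_const_mul, integral_sub_right_eq_self (ψR n) ζ, integral_ψR, mul_one]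
  · exact Eventually.of_forall fun ζ => tendsto_conv_gen hc ζ

theorem good_weak {μ : Measure ℂ} [IsFiniteMeasure μ] {D : Set ℂ} (hD : IsOpen D)
    {χ : ℂ → ℂ} (h : Good μ D χ) : ∃ M : ℝ, 0 ≤ M ∧ ∀ f : ℂ → ℂ, ContDiff ℝ 1 f →
      HasCompactSupport f → tsupport f ⊆ D → ‖∫ w, χ w * dbar f w‖ ≤ M * ∫ w, ‖f w‖ ∂μ := by
  obtain ⟨M, G, h0, h1, h2, h3⟩ := h
  refine ⟨M, h0, fun f hf hfcs hfs => ?_⟩
  have hdc : Continuous (dbar f) := dbar_continuous hf
  have hds : tsupport (dbar f) ⊆ D := dbar_tsupport.trans hfs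
  have hdcs : HasCompactSupport (dbar f) := dbar_hcs hfcs
  have hparts : ∀ n, ∫ w, G n w * dbar f w = - ∫ w, f w * dbar (G n) w := by
    intro n
    rw [integral_dbar_parts hD hf hfcs hfs (h1 n), neg_neg]
    congr 1
    funext w
    ring
  have hlimL : Tendsto (fun n => ∫ w, G n w * dbar f w) atTop (𝓝 (∫ w, χ w * dbar f w)) := by
    obtain ⟨n0, hn0⟩ := eventually_atTop.1 h2
    have hshift : Tendsto (fun n => ∫ w, G (n + n0) w * dbar f w) atTop
      (𝓝 (∫ w, χ w * dbar f w)) := by
      apply tendsto_integral_of_dominated_convergence (fun w => M * ‖dbar f w‖)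
      · intro n
        have h4 := continuous_mul_of_tsupport hD hdc hds (h1 (n + n0)).continuousOn
        have h5 : (fun w => G (n + n0) w * dbar f w) =
          fun w => dbar f w * G (n + n0) w := by funext w; ring
        rw [h5]
        exact h4.aestronglyMeasurable
      · exact (hdc.norm.integrable_of_hasCompactSupport hdcs.norm).const_mul M
      · intro n
        refine Eventually.of_forall fun w => ?_
        rw [norm_mul]
        by_cases hw : w ∈ D
        · exact mul_le_mul_of_nonneg_right (hn0 (n + n0) (by omega) w hw).1 (norm_nonneg _)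
        · have h4 : dbar f w = 0 := image_eq_zero_of_notMem_tsupport fun h => hw (hds h)
          rw [h4, norm_zero, mul_zero, mul_zero]
      · filter_upwards [h3] with w hw
        by_cases hwD : w ∈ D
        · exact ((hw hwD).comp (tendsto_add_atTop_nat n0)).mul_const _
        · have h4 : dbar f w = 0 := image_eq_zero_of_notMem_tsupport fun h => hwD (hds h)
          rw [h4]
          simp
    exact (tendsto_add_atTop_iff_nat n0).1 hshift
  have hlimR : Tendsto (fun n => M * ∫ w, ‖f w‖ * mm n μ w) atTop (𝓝 (M * ∫ w, ‖f w‖ ∂μ)) :=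
    (tendsto_int_mm_gen μ hf.continuous.norm hfcs.norm).const_mul M
  refine le_of_tendsto_of_tendsto hlimL.norm hlimR ?_
  filter_upwards [h2] with n hn
  rw [hparts n, norm_neg, ← integral_const_mul]
  have hi : Integrable (fun w => M * (‖f w‖ * mm n μ w)) := by
    apply Integrable.const_mul
    have h4 : Continuous (fun w => ‖f w‖ * mm n μ w) :=
      hf.continuous.norm.mul (mm_continuous n μ)
    exact h4.integrable_of_hasCompactSupport hfcs.norm.mul_right
  apply norm_integral_le_of_norm_le hi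
  refine Eventually.of_forall fun w => ?_
  rw [norm_mul]
  by_cases hw : w ∈ D
  · calc ‖f w‖ * ‖dbar (G n) w‖ ≤ ‖f w‖ * (M * mm n μ w) :=
        mul_le_mul_of_nonneg_left (hn w hw).2 (norm_nonneg _)
      _ = M * (‖f w‖ * mm n μ w) := by ring
  · have h4 : f w = 0 := image_eq_zero_of_notMem_tsupport fun h => hw (hfs h)
    rw [h4]
    simp

/-- from the complex estimate to the directional derivatives of real test functions -/
theorem real_est {μ : Measure ℂ} [IsFiniteMeasure μ] {D E : Set ℂ} (hE : MeasurableSet E) {M : ℝ}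
    (h0 : 0 ≤ M)
    (h : ∀ f : ℂ → ℂ, ContDiff ℝ 1 f → HasCompactSupport f → tsupport f ⊆ D →
      ‖∫ w, E.indicator (fun _ => (1 : ℂ)) w * dbar f w‖ ≤ M * ∫ w, ‖f w‖ ∂μ)
    (φ : ℂ → ℝ) (hφ : ContDiff ℝ 1 φ) (hc : HasCompactSupport φ) (hs : tsupport φ ⊆ D) (v : ℂ) :
    |∫ z in E, fderiv ℝ φ z v| ≤ 4 * M * ‖v‖ * ∫ z, |φ z| ∂μ := by
  set f : ℂ → ℂ := fun z => (φ z : ℂ) with hf
  have hfc : ContDiff ℝ 1 f := Complex.ofRealCLM.contDiff.comp hφ
  have hsub : tsupport f ⊆ tsupport φ := by
    apply closure_mono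
    intro z hz hz'
    exact hz (by simp [hf, hz'])
  have hfcs : HasCompactSupport f := IsCompact.of_isClosed_subset hc (isClosed_tsupport _) hsub
  have hd : ∀ z w, fderiv ℝ f z w = ((fderiv ℝ φ z w : ℝ) : ℂ) := by
    intro z w
    have h1 : HasFDerivAt f (Complex.ofRealCLM.comp (fderiv ℝ φ z)) z :=
      Complex.ofRealCLM.hasFDerivAt.comp z (hφ.differentiable (by norm_num) z).hasFDerivAt
    rw [h1.fderiv]
    rfl
  have hI0 : 0 ≤ ∫ z, |φ z| ∂μ := integral_nonneg fun z => abs_nonneg _
  have hint : ∫ w, ‖f w‖ ∂μ = ∫ z, |φ z| ∂μ := by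
    congr 1
    funext z
    simp [hf]
  have hset : ∫ w, E.indicator (fun _ => (1 : ℂ)) w * dbar f w = ∫ w in E, dbar f w := by
    rw [← integral_indicator hE]
    congr 1
    funext w
    by_cases hw : w ∈ E
    · rw [indicator_of_mem hw, indicator_of_mem hw, one_mul]
    · rw [indicator_of_notMem hw, indicator_of_notMem hw, zero_mul]
  have hest : ‖∫ w in E, dbar f w‖ ≤ M * ∫ z, |φ z| ∂μ := by
    rw [← hset, ← hint]
    exact h f hfc hfcs (hsub.trans hs)
  have hdi : IntegrableOn (dbar f) E :=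
    ((dbar_continuous hfc).integrable_of_hasCompactSupport (dbar_hcs hfcs)).integrableOn
  have hre : ∀ z, (dbar f z).re = fderiv ℝ φ z 1 / 2 := by
    intro z
    unfold dbar
    rw [hd, hd]
    simp
  have him : ∀ z, (dbar f z).im = fderiv ℝ φ z I / 2 := by
    intro z
    unfold dbar
    rw [hd, hd]
    simp
  have e1 : ∫ z in E, fderiv ℝ φ z 1 = 2 * (∫ w in E, dbar f w).re := by
    have h1 : (∫ w in E, dbar f w).re = ∫ w in E, (dbar f w).re :=
      (Complex.reCLM.integral_comp_comm hdi).symm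
    rw [h1, ← integral_const_mul]
    congr 1
    funext z
    rw [hre]
    ring
  have e2 : ∫ z in E, fderiv ℝ φ z I = 2 * (∫ w in E, dbar f w).im := by
    have h1 : (∫ w in E, dbar f w).im = ∫ w in E, (dbar f w).im :=
      (Complex.imCLM.integral_comp_comm hdi).symm
    rw [h1, ← integral_const_mul]
    congr 1
    funext z
    rw [him]
    ring
  have hiv : ∀ w : ℂ, IntegrableOn (fun z => fderiv ℝ φ z w) E := by
    intro w
    have hcw : Continuous (fun z => fderiv ℝ φ z w) :=
      (hφ.continuous_fderiv (by norm_num)).clm_apply continuous_const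
    have hsw : HasCompactSupport (fun z => fderiv ℝ φ z w) :=
      (hc.fderiv ℝ).comp_left (g := fun L : ℂ →L[ℝ] ℝ => L w) (by simp)
    exact (hcw.integrable_of_hasCompactSupport hsw).integrableOn
  have e3 : ∫ z in E, fderiv ℝ φ z v =
      v.re * (∫ z in E, fderiv ℝ φ z 1) + v.im * (∫ z in E, fderiv ℝ φ z I) := by
    rw [← integral_const_mul, ← integral_const_mul,
      ← integral_add ((hiv 1).const_mul _) ((hiv I).const_mul _)]
    congr 1
    funext z
    have hv : v = (v.re : ℝ) • (1 : ℂ) + (v.im : ℝ) • I := by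
      apply Complex.ext <;> simp
    conv_lhs => rw [hv]
    rw [map_add, map_smul, map_smul, smul_eq_mul, smul_eq_mul]
  rw [e3, e1, e2]
  have a1 : |(∫ w in E, dbar f w).re| ≤ M * ∫ z, |φ z| ∂μ := (Complex.abs_re_le_norm _).trans hest
  have a2 : |(∫ w in E, dbar f w).im| ≤ M * ∫ z, |φ z| ∂μ := (Complex.abs_im_le_norm _).trans hest
  have b1 : |v.re| ≤ ‖v‖ := Complex.abs_re_le_norm v
  have b2 : |v.im| ≤ ‖v‖ := Complex.abs_im_le_norm v
  have hMI : 0 ≤ M * ∫ z, |φ z| ∂μ := mul_nonneg h0 hI0
  calc |v.re * (2 * (∫ w in E, dbar f w).re) + v.im * (2 * (∫ w in E, dbar f w).im)|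
      ≤ |v.re * (2 * (∫ w in E, dbar f w).re)| + |v.im * (2 * (∫ w in E, dbar f w).im)| :=
        abs_add_le _ _
    _ = 2 * (|v.re| * |(∫ w in E, dbar f w).re|) + 2 * (|v.im| * |(∫ w in E, dbar f w).im|) := by
        rw [abs_mul, abs_mul, abs_mul, abs_mul, abs_two]; ring
    _ ≤ 2 * (‖v‖ * (M * ∫ z, |φ z| ∂μ)) + 2 * (‖v‖ * (M * ∫ z, |φ z| ∂μ)) := by
        gcongr
    _ = 4 * M * ‖v‖ * ∫ z, |φ z| ∂μ := by ring

theorem main : Pool.Agent.W500.CS.S_BVB := by
  classical
  intro μ _ k A z₁ r r' hr' hrr hA hne hval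
  set D : Set ℂ := ball z₁ r' with hDdef
  have hDo : IsOpen D := isOpen_ball
  have hDR : D ⊆ ball z₁ r := ball_subset_ball hrr.le
  set K : Set ℂ := closedBall z₁ ((r + r') / 2) with hK
  have hKc : IsCompact K := isCompact_closedBall _ _
  have hKR : K ⊆ ball z₁ r := closedBall_subset_ball (by linarith)
  have hDK : D ⊆ K := (ball_subset_ball (by linarith)).trans ball_subset_closedBall
  -- bounds
  have hbdA : ∀ j, ∃ M, 0 ≤ M ∧ ∀ z ∈ K, ‖A j z‖ ≤ M := by
    intro j
    obtain ⟨M, hM⟩ := hKc.exists_bound_of_continuousOn ((hA j).continuousOn.mono hKR)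
    exact ⟨max M 0, le_max_right _ _, fun z hz => (hM z hz).trans (le_max_left _ _)⟩
  choose MA hMA0 hMA using hbdA
  have hbdI : ∀ i j, i ≠ j → ∃ M, 0 ≤ M ∧ ∀ z ∈ K, ‖(A j z - A i z)⁻¹‖ ≤ M := by
    intro i j hij
    obtain ⟨M, hM⟩ := hKc.exists_bound_of_continuousOn (f := fun z => (A j z - A i z)⁻¹)
      ((((hA j).continuousOn.sub (hA i).continuousOn).inv₀
        (fun z hz => sub_ne_zero.2 (hne j i hij.symm z hz))).mono hKR)
    exact ⟨max M 0, le_max_right _ _, fun z hz => (hM z hz).trans (le_max_left _ _)⟩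
  have hgoodC : Good μ D (CT μ) := by
    refine good_CT μ (R := r') (R' := (r + r') / 2) (by linarith) (M := ∑ j, MA j)
      (Finset.sum_nonneg fun j _ => hMA0 j) ?_
    filter_upwards [hval] with z hz hzb
    have hzK : z ∈ K := ball_subset_closedBall hzb
    obtain ⟨j, hj⟩ := hz (hKR hzK)
    rw [hj]
    exact (hMA j z hzK).trans (Finset.single_le_sum (fun j _ => hMA0 j) (Finset.mem_univ j))
  have hgoodA : ∀ j, Good μ D (A j) := fun j =>
    good_of_holomorphic hDo ((hA j).mono hDR) (hMA0 j) fun z hz => hMA j z (hDK hz)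
  -- the indicator functions
  set E : Fin k → Set ℂ := fun j => {z | z ∈ ball z₁ r ∧ CT μ z = A j z} with hE
  have hEm : ∀ j, MeasurableSet (E j) := by
    intro j
    have h1 : E j = ball z₁ r ∩ {z | CT μ z = (ball z₁ r).indicator (A j) z} := by
      ext z
      constructor
      · rintro ⟨h1, h2⟩
        refine ⟨h1, ?_⟩
        show CT μ z = (ball z₁ r).indicator (A j) z
        rw [indicator_of_mem h1]; exact h2
      · rintro ⟨h1, h2⟩
        have h2' : CT μ z = (ball z₁ r).indicator (A j) z := h2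
        rw [indicator_of_mem h1] at h2'
        exact ⟨h1, h2'⟩
    rw [h1]
    apply measurableSet_ball.inter
    apply measurableSet_eq_fun (measurable_CT μ)
    have h3 : Measurable ((ball z₁ r).indicator (A j)) := by
      have h4 : Measurable ((ball z₁ r).piecewise (A j) (fun _ => 0)) :=
        ContinuousOn.measurable_piecewise (hA j).continuousOn continuousOn_const measurableSet_ball
      have h5 : (ball z₁ r).piecewise (A j) (fun _ => 0) = (ball z₁ r).indicator (A j) := by
        funext z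
        by_cases hz : z ∈ ball z₁ r
        · rw [piecewise_eq_of_mem _ _ _ hz, indicator_of_mem hz]
        · rw [piecewise_eq_of_notMem _ _ _ hz, indicator_of_notMem hz]
      rw [← h5]
      exact h4
    exact h3
  have hgoodE : ∀ j, Good μ D ((E j).indicator (fun _ => (1 : ℂ))) := by
    intro j
    have h1 : Good μ D (fun z => ∏ i ∈ Finset.univ.erase j,
        ((CT μ z + (-1) * A i z) * (A j z - A i z)⁻¹)) := by
      apply Good.prod hDo
      intro i hi
      have hij : i ≠ j := (Finset.mem_erase.1 hi).1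
      apply Good.mul hDo
      · apply Good.add hDo hgoodC
        apply Good.mul hDo
        · exact good_of_holomorphic hDo (differentiableOn_const (-1)) (M := 1) zero_le_one
            (fun z _ => by simp)
        · exact hgoodA i
      · obtain ⟨M, hM0, hM⟩ := hbdI i j hij
        apply good_of_holomorphic hDo _ hM0 (fun z hz => hM z (hDK hz))
        exact (((hA j).sub (hA i)).inv (fun z hz => sub_ne_zero.2 (hne j i hij.symm z hz))).mono hDR
    refine h1.congr ?_
    filter_upwards [hval] with z hz hzD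
    obtain ⟨l, hl⟩ := hz (hDR hzD)
    by_cases hlj : l = j
    · subst hlj
      have hzE : z ∈ E l := ⟨hDR hzD, hl⟩
      rw [indicator_of_mem hzE]
      apply Finset.prod_eq_one
      intro i hi
      have hij : i ≠ l := (Finset.mem_erase.1 hi).1
      rw [hl]
      have h2 : A l z - A i z ≠ 0 := sub_ne_zero.2 (hne l i hij.symm z (hDR hzD))
      have h3 : A l z + -1 * A i z = A l z - A i z := by ring
      rw [h3, mul_inv_cancel₀ h2]
    · have hzE : z ∉ E j := by
        rintro ⟨_, h2⟩
        have h3 : CT μ z = A j z := h2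
        exact hne l j hlj z (hDR hzD) (hl.symm.trans h3)
      rw [indicator_of_notMem hzE]
      apply Finset.prod_eq_zero (i := l) (Finset.mem_erase.2 ⟨hlj, Finset.mem_univ _⟩)
      rw [hl]
      ring
  choose MB hMB0 hMB using fun j => good_weak hDo (hgoodE j)
  refine ⟨4 * ∑ j, MB j, fun j φ hφ hc hs v => ?_⟩
  refine (real_est (hEm j) (hMB0 j) (hMB j) φ hφ hc hs v).trans ?_
  have hI0 : 0 ≤ ∫ z, |φ z| ∂μ := integral_nonneg fun z => abs_nonneg _
  have hle : MB j ≤ ∑ j, MB j :=
    Finset.single_le_sum (fun j _ => hMB0 j) (Finset.mem_univ j)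
  gcongr

end Pool.Agent.W589.CQ
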